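import Pool.Agent.Helper2.UN.CDefs
import Pool.Agent.Helper16.UN.CR2

/-!
Unitary Mumford-Tate pairs, block CE2: the dichotomy for a pair of orthogonal roots.
-/

open Module

namespace UN

section comb

variable {K : Type*} [Field K] [CharZero K] {M : Type*} [AddCommGroup M] [Module K M]
  {B : LinearMap.BilinForm K M} {s : M →ₗ[K] K} {c : K} {Φ X : Finset M}

namespace CE2

theorem diam (h : USL B s c Φ X) {β : M} (hβ : β ∈ Φ) (hsβ : s β = 1) {b : M} (hb : b ∈ Φ)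
    (hsb : s b = 1) : b = β ∨ B β b = 1 ∨ ∃ a ∈ Φ, s a = 1 ∧ B β a = 1 ∧ B a b = 1 := by
  refine h.conn {b | b = β ∨ B β b = 1 ∨ ∃ a ∈ Φ, s a = 1 ∧ B β a = 1 ∧ B a b = 1}
    ⟨β, hβ, hsβ, Or.inl rfl⟩ ?_ b hb hsb
  intro a ha b hb hsa hsb hab hD
  show b = β ∨ B β b = 1 ∨ ∃ a ∈ Φ, s a = 1 ∧ B β a = 1 ∧ B a b = 1
  rcases hD with rfl | hD | ⟨e, he, hse, hβe, hea⟩
  · exact Or.inr (Or.inl hab)
  · exact Or.inr (Or.inr ⟨a, ha, hsa, hD, hab⟩)
  · by_cases hbe : b = e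
    · subst hbe
      exact Or.inr (Or.inl hβe)
    rcases CR2.f2 h he hb hse hsb (Ne.symm hbe) with h1 | h1
    swap
    · exact Or.inr (Or.inr ⟨e, he, hse, hβe, h1⟩)
    by_cases hbβ : b = β
    · exact Or.inl hbβ
    rcases CR2.f2 h hβ hb hsβ hsb (Ne.symm hbβ) with h2 | h2
    swap
    · exact Or.inr (Or.inl h2)
    by_cases haβ : a = β
    · subst haβ
      exact Or.inr (Or.inl hab)
    rcases CR2.f2 h hβ ha hsβ hsa (Ne.symm haβ) with h3 | h3
    swap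
    · exact Or.inr (Or.inr ⟨a, ha, hsa, h3, hab⟩)
    have h4 : β - e ∈ Φ := h.sub β hβ e he hβe
    have h5 : β - e + a ∈ Φ := CR2.add_mem h h4 ha (by
      rw [map_sub, LinearMap.sub_apply, h3, hea, zero_sub])
    refine Or.inr (Or.inr ⟨β - e + a, h5, ?_, ?_, ?_⟩)
    · rw [map_add, map_sub, hsβ, hse, hsa]; ring
    · rw [map_add, map_sub, h.two β hβ, hβe, h3]; ring
    · rw [map_add, map_sub, LinearMap.add_apply, LinearMap.sub_apply, h2, h1, hab]; ring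

theorem perp (h : USL B s c Φ X) {β : M} (hβ : β ∈ Φ) (hsβ : s β = 1) {m : M}
    (h0 : B m β = 0) (h1 : ∀ d ∈ Φ, B β d = 1 → B m d = 0) : m = 0 := by
  apply h.hit
  intro b hb hsb
  rcases diam h hβ hsβ hb hsb with rfl | h2 | ⟨a, ha, hsa, hβa, hab⟩
  · exact h0
  · exact h1 b hb h2
  · by_cases hbβ : b = β
    · rw [hbβ, h0]
    rcases CR2.f2 h hβ hb hsβ hsb (Ne.symm hbβ) with h2 | h2
    swap
    · exact h1 b hb h2
    have h3 := h1 (a - b) (h.sub a ha b hb hab) (by rw [map_sub, hβa, h2, sub_zero])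
    rw [map_sub, h1 a ha hβa, zero_sub, neg_eq_zero] at h3
    exact h3

omit [CharZero K] in
/-- the possible values of the form on roots -/
theorem cases5 (h : USL B s c Φ X) {a b : M} (ha : a ∈ Φ) (hb : b ∈ Φ) :
    a = b ∨ a = -b ∨ B a b = -1 ∨ B a b = 0 ∨ B a b = 1 := by
  by_cases h1 : a = b
  · exact Or.inl h1
  by_cases h2 : a = -b
  · exact Or.inr (Or.inl h2)
  exact Or.inr (Or.inr (h.pair a ha b hb h1 h2))

theorem eq_of_two (h : USL B s c Φ X) {a b : M} (ha : a ∈ Φ) (hb : b ∈ Φ) (hab : B a b = 2) :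
    a = b := by
  rcases cases5 h ha hb with h1 | h1 | h1 | h1 | h1
  · exact h1
  · exfalso
    rw [h1, map_neg, LinearMap.neg_apply, h.two b hb] at hab
    have : (4 : K) = 0 := by linear_combination -hab
    norm_num at this
  · exfalso
    rw [h1] at hab
    have : (3 : K) = 0 := by linear_combination -hab
    norm_num at this
  · exfalso
    rw [h1] at hab
    norm_num at hab
  · exfalso
    rw [h1] at hab
    norm_num at hab

/-- A vector orthogonal to `β`, to a neighbour `d` of `β` and to the roots orthogonal to `β` which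
take the value one on `d` is zero. -/
theorem orth_zero (h : USL B s c Φ X) {β : M} (hβ : β ∈ Φ) (hsβ : s β = 1) {d v : M}
    (hd : d ∈ Φ) (hβd : B β d = 1) (hvβ : B v β = 0) (hvd : B v d = 0)
    (hk : ∀ k ∈ Φ, B β k = 0 → B d k = 1 → B v k = 0) : v = 0 := by
  have hdβ : B d β = 1 := by rw [h.symm, hβd]
  -- neighbours adjacent to d
  have key : ∀ d' ∈ Φ, B β d' = 1 → B d d' = 1 → B v d' = 0 := by
    intro d' hd' hβd' hdd'
    have h1 := hk (d - d') (h.sub d hd d' hd' hdd') (by rw [map_sub, hβd, hβd', sub_self])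
      (by rw [map_sub, h.two d hd, hdd']; norm_num)
    rw [map_sub, hvd, zero_sub, neg_eq_zero] at h1
    exact h1
  apply perp h hβ hsβ hvβ
  intro d' hd' hβd'
  rcases cases5 h hd hd' with h1 | h1 | h1 | h1 | h1
  · rw [← h1, hvd]
  · exfalso
    rw [h1, map_neg, hβd'] at hβd
    have : (2 : K) = 0 := by linear_combination -hβd
    norm_num at this
  · have h2 : d + d' ∈ Φ := CR2.add_mem h hd hd' h1
    have h3 : β = d + d' := eq_of_two h hβ h2 (by rw [map_add, hβd, hβd']; norm_num)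
    rw [h3, map_add, hvd, zero_add] at hvβ
    exact hvβ
  · have h2 : β - d' ∈ Φ := h.sub β hβ d' hd' hβd'
    have h3 := key (β - d') h2 (by rw [map_sub, h.two β hβ, hβd']; norm_num)
      (by rw [map_sub, hdβ, h1, sub_zero])
    rw [map_sub, hvβ, zero_sub, neg_eq_zero] at h3
    exact h3
  · exact key d' hd' hβd' h1

/-- A part of the roots orthogonal to `β` which is orthogonal to the other part. -/
structure Part (B : LinearMap.BilinForm K M) (Φ : Finset M) (β : M) (T : M → Prop) : Prop where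
  mem : ∀ g, T g → g ∈ Φ
  orth : ∀ g, T g → B β g = 0
  neg : ∀ g, T g → T (-g)
  sep : ∀ k ∈ Φ, B β k = 0 → ¬ T k → ∀ g, T g → B g k = 0
  ne : ∃ g, T g

/-- (4) -/
theorem exists_nbr (h : USL B s c Φ X) {β : M} (hβ : β ∈ Φ) (hsβ : s β = 1) {T : M → Prop}
    (hT : Part B Φ β T) {d : M} (hd : d ∈ Φ) (hβd : B β d = 1) : ∃ g, T g ∧ B d g = 1 := by
  by_contra hcon
  push Not at hcon
  have h0 : ∀ g, T g → B d g = 0 := by
    intro g hg
    rcases cases5 h hd (hT.mem g hg) with h1 | h1 | h1 | h1 | h1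
    · exfalso
      rw [h1, hT.orth g hg] at hβd
      exact zero_ne_one hβd
    · exfalso
      rw [h1, map_neg, hT.orth g hg, neg_zero] at hβd
      exact zero_ne_one hβd
    · exact absurd (by rw [map_neg, h1, neg_neg]) (hcon (-g) (hT.neg g hg))
    · exact h1
    · exact absurd h1 (hcon g hg)
  obtain ⟨g, hg⟩ := hT.ne
  apply CR2.ne_zero h (hT.mem g hg)
  refine orth_zero h hβ hsβ hd hβd (by rw [h.symm, hT.orth g hg]) (by rw [h.symm, h0 g hg]) ?_
  intro k hk hβk hdk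
  refine hT.sep k hk hβk (fun hTk => ?_) g hg
  rw [h0 k hTk] at hdk
  exact zero_ne_one hdk

/-- (7) -/
theorem only (h : USL B s c Φ X) {β : M} (hβ : β ∈ Φ) (hsβ : s β = 1) {T : M → Prop}
    (hT : Part B Φ β T) {d g : M} (hd : d ∈ Φ) (hβd : B β d = 1) (hg : T g) (hdg : B d g = 1)
    (hu : ∀ k, T k → B d k = 1 → k = g) (k : M) (hk : T k) : k = g ∨ k = -g := by
  have hgΦ := hT.mem g hg
  have hkΦ := hT.mem k hk
  rcases cases5 h hd hkΦ with h1 | h1 | h1 | h1 | h1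
  · exfalso
    rw [h1, hT.orth k hk] at hβd
    exact zero_ne_one hβd
  · exfalso
    rw [h1, map_neg, hT.orth k hk, neg_zero] at hβd
    exact zero_ne_one hβd
  · right
    rw [← hu (-k) (hT.neg k hk) (by rw [map_neg, h1, neg_neg]), neg_neg]
  swap
  · exact Or.inl (hu k hk h1)
  -- B d k = 0
  have hkg : k = g ∨ k = -g ∨ B k g = 0 := by
    rcases cases5 h hkΦ hgΦ with h2 | h2 | h2 | h2 | h2
    · exact Or.inl h2
    · exact Or.inr (Or.inl h2)
    · exfalso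
      have h3 : k + g ∈ Φ := CR2.add_mem h hkΦ hgΦ h2
      have h4 : T (k + g) := by
        by_contra hcon
        have h5 := hT.sep (k + g) h3 (by rw [map_add, hT.orth k hk, hT.orth g hg, add_zero])
          hcon g hg
        rw [map_add, h.symm g k, h2, h.two g hgΦ] at h5
        norm_num at h5
      have h5 := hu (k + g) h4 (by rw [map_add, h1, hdg, zero_add])
      exact CR2.ne_zero h hkΦ (by simpa using h5)
    · exact Or.inr (Or.inr h2)
    · exfalso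
      have h3 : g - k ∈ Φ := h.sub g hgΦ k hkΦ (by rw [h.symm, h2])
      have h4 : T (g - k) := by
        by_contra hcon
        have h5 := hT.sep (g - k) h3 (by rw [map_sub, hT.orth k hk, hT.orth g hg, sub_zero])
          hcon g hg
        rw [map_sub, h.symm g k, h2, h.two g hgΦ] at h5
        norm_num at h5
      have h5 := hu (g - k) h4 (by rw [map_sub, h1, hdg, sub_zero])
      exact CR2.ne_zero h hkΦ (by simpa using h5)
  rcases hkg with h2 | h2 | h2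
  · exact Or.inl h2
  · exact Or.inr h2
  · exfalso
    apply CR2.ne_zero h hkΦ
    refine orth_zero h hβ hsβ hd hβd (by rw [h.symm, hT.orth k hk]) (by rw [h.symm, h1]) ?_
    intro e he hβe hde
    by_cases hTe : T e
    · rw [hu e hTe hde, h2]
    · exact hT.sep e he hβe hTe k hk

/-- (3) -/
theorem exists_psi2 (h : USL B s c Φ X) {β : M} (hβ : β ∈ Φ)
    (hr : ∃ x ∈ X, ∃ y ∈ X, x ≠ y ∧ B x β = 1 ∧ B y β = 1) :
    ∃ g ∈ Φ, B β g = 0 ∧ ∃ x ∈ X, B x β = 1 ∧ B x g ≠ 0 := by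
  obtain ⟨x, hx, y, hy, hxy, hxβ, hyβ⟩ := hr
  obtain ⟨g, hg, hxg, hyg⟩ := h.sep x hx y hy hxy
  refine ⟨g, hg, ?_, x, hx, hxβ, by rw [hxg]; exact one_ne_zero⟩
  rcases cases5 h hβ hg with h1 | h1 | h1 | h1 | h1
  · exfalso
    rw [← h1, hyβ] at hyg
    norm_num at hyg
  · exfalso
    rw [h1, map_neg, hxg] at hxβ
    norm_num at hxβ
  · exfalso
    have h2 := CR2.add_mem h hβ hg h1
    rcases h.small x hx _ h2 with h3 | h3 | h3 <;> rw [map_add, hxβ, hxg] at h3 <;>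
      norm_num at h3
  · exact h1
  · exfalso
    have h2 := h.sub β hβ g hg h1
    rcases h.small y hy _ h2 with h3 | h3 | h3 <;> rw [map_sub, hyβ, hyg] at h3 <;>
      norm_num at h3

omit [CharZero K] in
/-- (2) -/
theorem psi_orth (h : USL B s c Φ X) {β g k x : M}
    (hg1 : ∀ x ∈ X, B x β = 1 → B x g = 0) (hk : k ∈ Φ) (hβk : B β k = 0)
    (hx : x ∈ X) (hxβ : B x β = 1) (hxk : B x k ≠ 0) : B k g = 0 := by
  have h1 := hg1 _ (CR2.refl_mem h hx hk) (by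
    rw [map_sub, LinearMap.sub_apply, map_smul, LinearMap.smul_apply, h.symm k β, hβk, smul_zero,
      sub_zero, hxβ])
  rw [map_sub, LinearMap.sub_apply, map_smul, LinearMap.smul_apply, hg1 x hx hxβ, zero_sub,
    neg_eq_zero, smul_eq_mul] at h1
  exact (mul_eq_zero.1 h1).resolve_left hxk

end CE2

/-- CE2: the dichotomy for a pair of orthogonal roots. -/
theorem USL.dich (h : USL B s c Φ X) {α β : M} (hα : α ∈ Φ) (hβ : β ∈ Φ) (hsα : s α = 1)
    (hsβ : s β = 1) (hαβ : B β α = 0)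
    (hr : ∃ x ∈ X, ∃ y ∈ X, x ≠ y ∧ B x β = 1 ∧ B y β = 1) :
    (∀ g ∈ Φ, B β g = 0 → (∀ x ∈ X, B x β = 1 → B x g = 0) → g = α ∨ g = -α) ∨
    (∃ g₀ ∈ Φ, B β g₀ = 0 ∧ ∀ g ∈ Φ, B β g = 0 → (∃ x ∈ X, B x β = 1 ∧ B x g ≠ 0) →
      g = g₀ ∨ g = -g₀) := by
  set T₁ : M → Prop := fun g => g ∈ Φ ∧ B β g = 0 ∧ ∀ x ∈ X, B x β = 1 → B x g = 0 with hT₁
  set T₂ : M → Prop := fun g => g ∈ Φ ∧ B β g = 0 ∧ ∃ x ∈ X, B x β = 1 ∧ B x g ≠ 0 with hT₂
  have hα1 : T₁ α := ⟨hα, hαβ, fun x hx hxβ => CR2.f4 h hβ hα hx hsβ hsα hαβ hxβ⟩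
  have P1 : CE2.Part B Φ β T₁ := by
    refine ⟨fun g hg => hg.1, fun g hg => hg.2.1, fun g hg => ⟨h.neg g hg.1, ?_, ?_⟩, ?_,
      ⟨α, hα1⟩⟩
    · rw [map_neg, hg.2.1, neg_zero]
    · intro x hx hxβ
      rw [map_neg, hg.2.2 x hx hxβ, neg_zero]
    · intro k hk hβk hTk g hg
      have h1 : ∃ x ∈ X, B x β = 1 ∧ B x k ≠ 0 := by
        by_contra hcon
        push Not at hcon
        exact hTk ⟨hk, hβk, hcon⟩
      obtain ⟨x, hx, hxβ, hxk⟩ := h1
      rw [h.symm]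
      exact CE2.psi_orth h hg.2.2 hk hβk hx hxβ hxk
  have P2 : CE2.Part B Φ β T₂ := by
    refine ⟨fun g hg => hg.1, fun g hg => hg.2.1, fun g hg => ⟨h.neg g hg.1, ?_, ?_⟩, ?_, ?_⟩
    · rw [map_neg, hg.2.1, neg_zero]
    · obtain ⟨x, hx, hxβ, hxg⟩ := hg.2.2
      exact ⟨x, hx, hxβ, by rw [map_neg]; exact neg_ne_zero.2 hxg⟩
    · intro k hk hβk hTk g hg
      obtain ⟨x, hx, hxβ, hxg⟩ := hg.2.2
      refine CE2.psi_orth h (fun y hy hyβ => ?_) hg.1 hg.2.1 hx hxβ hxg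
      by_contra hcon
      exact hTk ⟨hk, hβk, y, hy, hyβ, hcon⟩
    · obtain ⟨g, hg⟩ := CE2.exists_psi2 h hβ hr
      exact ⟨g, hg⟩
  have hcase : ∀ k ∈ Φ, B β k = 0 → T₁ k ∨ T₂ k := by
    intro k hk hβk
    by_cases h1 : ∃ x ∈ X, B x β = 1 ∧ B x k ≠ 0
    · exact Or.inr ⟨hk, hβk, h1⟩
    · push Not at h1
      exact Or.inl ⟨hk, hβk, h1⟩
  have h12 : ∀ g k, T₁ g → T₂ k → B g k = 0 := by
    intro g k hg hk
    obtain ⟨x, hx, hxβ, hxk⟩ := hk.2.2
    rw [h.symm]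
    exact CE2.psi_orth h hg.2.2 hk.1 hk.2.1 hx hxβ hxk
  -- a neighbour of β
  obtain ⟨d, hd, hβd⟩ : ∃ d ∈ Φ, B β d = 1 := by
    by_contra hcon
    push Not at hcon
    apply CR2.ne_zero h hα
    exact CE2.perp h hβ hsβ (by rw [h.symm, hαβ]) (fun d hd hβd => absurd hβd (hcon d hd))
  obtain ⟨g₁, hg₁, hdg₁⟩ := CE2.exists_nbr h hβ hsβ P1 hd hβd
  obtain ⟨g₂, hg₂, hdg₂⟩ := CE2.exists_nbr h hβ hsβ P2 hd hβd
  have hg₁₂ := h12 g₁ g₂ hg₁ hg₂
  have hdβ : B d β = 1 := by rw [h.symm, hβd]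
  have hg₁d : B g₁ d = 1 := by rw [h.symm, hdg₁]
  have hg₂d : B g₂ d = 1 := by rw [h.symm, hdg₂]
  have hg₁β : B g₁ β = 0 := by rw [h.symm, hg₁.2.1]
  have hg₂β : B g₂ β = 0 := by rw [h.symm, hg₂.2.1]
  have hg₂₁ : B g₂ g₁ = 0 := by rw [h.symm, hg₁₂]
  have hd1 : d - g₁ ∈ Φ := h.sub d hd g₁ hg₁.1 hdg₁
  have hβd' : β - d ∈ Φ := h.sub β hβ d hd hβd
  have hd2 : β - d + g₂ ∈ Φ := CR2.add_mem h hβd' hg₂.1 (by
    rw [map_sub, LinearMap.sub_apply, hg₂.2.1, hdg₂, zero_sub])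
  have hg3 : d - g₁ - (β - d + g₂) ∈ Φ := h.sub _ hd1 _ hd2 (by
    simp only [map_sub, map_add, LinearMap.sub_apply, hdβ, h.two d hd, hdg₂, hg₁β, hg₁d, hg₁₂]
    norm_num)
  set g₃ := d - g₁ - (β - d + g₂) with hg₃
  have e0 : B β g₃ = 0 := by
    simp only [hg₃, map_sub, map_add, h.two β hβ, hβd, hg₁.2.1, hg₂.2.1]
    norm_num
  have e1 : ∀ k : M, B k g₃ = 2 * B k d - B k β - B k g₁ - B k g₂ := by
    intro k
    simp only [hg₃, map_sub, map_add]
    ring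
  rcases hcase g₃ hg3 e0 with h3 | h3
  · -- second alternative
    right
    refine ⟨g₂, hg₂.1, hg₂.2.1, fun g hg hβg hx => ?_⟩
    refine CE2.only h hβ hsβ P2 hd hβd hg₂ hdg₂ (fun k hk hdk => ?_) g ⟨hg, hβg, hx⟩
    apply CE2.eq_of_two h hk.1 hg₂.1
    have h4 := e1 k
    rw [h.symm k g₃, h12 g₃ k h3 hk, h.symm k d, hdk, h.symm k β, hk.2.1, h.symm k g₁,
      h12 g₁ k hg₁ hk] at h4
    linear_combination h4
  · -- first alternative
    left
    have hall := CE2.only h hβ hsβ P1 hd hβd hg₁ hdg₁ (fun k hk hdk => by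
      apply CE2.eq_of_two h hk.1 hg₁.1
      have h4 := e1 k
      rw [h12 k g₃ hk h3, h.symm k d, hdk, h.symm k β, hk.2.1, h12 k g₂ hk hg₂] at h4
      linear_combination h4)
    intro g hg hβg hx
    rcases hall g ⟨hg, hβg, hx⟩ with h4 | h4 <;> rcases hall α hα1 with h5 | h5 <;>
      rw [h4, h5] <;> simp

end comb

end UN
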